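import Mathlib

/-!
# Project HB, module PFIN: fixed points of p-groups on groups of exponent a power of p
-/

set_option autoImplicit false

namespace Pool.Agent.H17.HB

/-- a nilpotent endomorphism with finite kernel -/
theorem finite_of_nilp {A : Type} [AddCommGroup A] (N : AddMonoid.End A)
    (hk : {a : A | N a = 0}.Finite) (j : ℕ) (hj : N ^ j = 0) : Finite A := by
  have h1 : ∀ i : ℕ, {a : A | (N ^ i) a = 0}.Finite := by
    intro i
    induction i with
    | zero =>
      have : {a : A | (N ^ 0) a = 0} = {0} := by
        ext a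
        simp
      rw [this]
      exact Set.finite_singleton 0
    | succ i ih =>
      have h2 : {a : A | (N ^ (i + 1)) a = 0} = (fun a => N a) ⁻¹' {a : A | (N ^ i) a = 0} := by
        ext a
        rw [pow_succ]
        rfl
      rw [h2]
      refine Set.Finite.preimage' ih fun b _ => ?_
      by_cases hb : ∃ a0, N a0 = b
      · obtain ⟨a0, ha0⟩ := hb
        refine (hk.image (fun x => x + a0)).subset ?_
        intro a ha
        refine ⟨a - a0, ?_, sub_add_cancel a a0⟩
        have h3 : N a = b := ha
        change N (a - a0) = 0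
        rw [map_sub, h3, ha0, sub_self]
      · have h3 : (fun a => N a) ⁻¹' {b} = ∅ := by
          ext a
          simp only [Set.mem_preimage, Set.mem_singleton_iff, Set.mem_empty_iff_false, iff_false]
          exact fun h => hb ⟨a, h⟩
        rw [h3]
        exact Set.finite_empty
  have h2 := h1 j
  rw [hj] at h2
  have h3 : {a : A | (0 : AddMonoid.End A) a = 0} = Set.univ := by
    ext a
    simp
  rw [h3] at h2
  exact Set.finite_univ_iff.mp h2

/-- `f - 1` is nilpotent -/
theorem nilp {A : Type} [AddCommGroup A] (p : ℕ) (hp : p.Prime) (k m : ℕ)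
    (hk : ∀ a : A, (p ^ k : ℕ) • a = 0) (f : AddMonoid.End A) (hf : f ^ p ^ m = 1) :
    (f - 1) ^ (p ^ m * k) = 0 := by
  obtain ⟨r0, hr0⟩ := (Commute.one_right (f - 1)).exists_add_pow_prime_pow_eq hp m
  rw [sub_add_cancel, hf, one_pow] at hr0
  obtain ⟨r, hr1⟩ : ∃ r, r = (f - 1) * 1 * r0 := ⟨_, rfl⟩
  have hr : (1 : AddMonoid.End A) = (f - 1) ^ p ^ m + 1 + (p : AddMonoid.End A) * r := by
    rw [hr1, ← mul_assoc, ← mul_assoc]
    exact hr0
  have h1 : (f - 1) ^ p ^ m = (p : AddMonoid.End A) * (-r) := by
    have h2 : (f - 1) ^ p ^ m + (p : AddMonoid.End A) * r = 0 := by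
      have h4 := sub_eq_zero.mpr hr
      have h5 : (1 : AddMonoid.End A) - ((f - 1) ^ p ^ m + 1 + (p : AddMonoid.End A) * r) =
          -((f - 1) ^ p ^ m + (p : AddMonoid.End A) * r) := by abel
      rw [h5] at h4
      exact neg_eq_zero.mp h4
    rw [mul_neg]
    exact eq_neg_of_add_eq_zero_left h2
  rw [pow_mul, h1, (Nat.cast_commute p (-r)).mul_pow]
  have h2 : ((p : AddMonoid.End A)) ^ k = 0 := by
    rw [← Nat.cast_pow]
    ext a
    rw [AddMonoid.End.natCast_apply, hk a]
    rfl
  rw [h2, zero_mul]

theorem pfin_aux (p : ℕ) (hp : p.Prime) (k : ℕ) (A : Type) [AddCommGroup A]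
    (hk : ∀ a : A, (p ^ k : ℕ) • a = 0) :
    ∀ (n : ℕ) (G : Type) [Group G] [Finite G] [DistribMulAction G A], Nat.card G = p ^ n →
      {a : A | ∀ g : G, g • a = a}.Finite → Finite A := by
  intro n
  induction n with
  | zero =>
    intro G _ _ _ hG hfix
    have : Subsingleton G := by
      rw [pow_zero] at hG
      exact (Nat.card_eq_one_iff_unique.mp hG).1
    have h1 : {a : A | ∀ g : G, g • a = a} = Set.univ := by
      ext a
      simp only [Set.mem_ofPred_eq, Set.mem_univ, iff_true]
      intro g
      rw [Subsingleton.elim g 1, one_smul]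
    rw [h1] at hfix
    exact Set.finite_univ_iff.mp hfix
  | succ n ih =>
    intro G _ _ _ hG hfix
    have : Fact p.Prime := ⟨hp⟩
    obtain ⟨H, hH⟩ := Sylow.exists_subgroup_card_pow_prime (G := G) p (n := n)
      (by rw [hG]; exact pow_dvd_pow p (Nat.le_succ n))
    have hidx : H.index = p := by
      have h1 := H.card_mul_index
      rw [hH, hG, pow_succ] at h1
      exact Nat.eq_of_mul_eq_mul_left (pow_pos hp.pos n) h1
    have hnorm : H.Normal := by
      apply Subgroup.normal_of_index_eq_minFac_card
      rw [hidx, hG, hp.pow_minFac (Nat.succ_ne_zero n)]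
    obtain ⟨σ, hσ⟩ : ∃ σ : G, σ ∉ H := by
      by_contra hcon
      push Not at hcon
      have h1 : H = ⊤ := by
        rw [eq_top_iff]
        exact fun x _ => hcon x
      rw [h1, Subgroup.index_top] at hidx
      exact hp.one_lt.ne hidx
    refine ih H hH ?_
    -- the fixed elements of `H`
    let B : AddSubgroup A :=
      { carrier := {a | ∀ g : H, g • a = a}
        zero_mem' := fun g => smul_zero g
        add_mem' := fun {a b} ha hb g => by rw [smul_add, ha g, hb g]
        neg_mem' := fun {a} ha g => by rw [smul_neg, ha g] }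
    have hBσ : ∀ b ∈ B, σ • b ∈ B := by
      intro b hb g
      have h1 : σ⁻¹ * (g : G) * σ ∈ H := by
        have := hnorm.conj_mem g.1 g.2 σ⁻¹
        rwa [inv_inv] at this
      have h2 : (g : G) * σ = σ * (σ⁻¹ * (g : G) * σ) := by group
      have h3 : (σ⁻¹ * (g : G) * σ) • b = b := hb ⟨_, h1⟩
      change (g : G) • σ • b = σ • b
      rw [← mul_smul, h2, mul_smul, h3]
    let f : AddMonoid.End B :=
      { toFun := fun b => ⟨σ • b.1, hBσ b.1 b.2⟩
        map_zero' := Subtype.ext (smul_zero σ)
        map_add' := fun a b => Subtype.ext (smul_add σ a.1 b.1) }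
    have hfp : ∀ (j : ℕ) (b : B), (((f ^ j) b : B) : A) = σ ^ j • (b : A) := by
      intro j
      induction j with
      | zero => intro b; rw [pow_zero, pow_zero, one_smul]; rfl
      | succ j ihj =>
        intro b
        rw [pow_succ, pow_succ, mul_smul]
        exact ihj (f b)
    have hpG : IsPGroup p G := IsPGroup.of_card hG
    obtain ⟨m, hm⟩ := hpG σ
    have hfm : f ^ p ^ m = 1 := by
      ext b
      rw [hfp, hm, one_smul]
      rfl
    have hkB : ∀ b : B, (p ^ k : ℕ) • b = 0 := fun b => Subtype.ext (hk b.1)
    have hker : {b : B | (f - 1) b = 0}.Finite := by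
      refine Set.Finite.of_injOn (f := fun b : B => (b : A)) (t := {a : A | ∀ g : G, g • a = a})
        ?_ Subtype.val_injective.injOn hfix
      intro b hb
      have h1 : σ • (b : A) = b := by
        have h2 : (f - 1) b = 0 := hb
        have h3 : f b - b = 0 := h2
        exact congrArg Subtype.val (sub_eq_zero.mp h3)
      have h4 : H ≤ MulAction.stabilizer G (b : A) := by
        intro g hg
        exact b.2 ⟨g, hg⟩
      have h5 : σ ∈ MulAction.stabilizer G (b : A) := h1
      have h6 : (MulAction.stabilizer G (b : A)).index ∣ p := by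
        rw [← hidx]
        exact Subgroup.index_dvd_of_le h4
      have h7 : MulAction.stabilizer G (b : A) = ⊤ := by
        rcases (Nat.dvd_prime hp).mp h6 with h | h
        · exact Subgroup.index_eq_one.mp h
        · exfalso
          apply hσ
          have h8 : H = MulAction.stabilizer G (b : A) := by
            apply Subgroup.eq_of_le_of_card_ge h4
            have h9 := (MulAction.stabilizer G (b : A)).card_mul_index
            have h10 := H.card_mul_index
            rw [h] at h9
            rw [hidx] at h10
            have : Nat.card (MulAction.stabilizer G (b : A)) * p = Nat.card H * p := by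
              rw [h9, h10]
            exact (Nat.eq_of_mul_eq_mul_right hp.pos this).le
          rw [h8]
          exact h5
      intro g
      have : g ∈ MulAction.stabilizer G (b : A) := by rw [h7]; trivial
      exact this
    have hB : Finite B := finite_of_nilp (f - 1) hker _ (nilp p hp k m hkB f hfm)
    exact (Set.toFinite (B : Set A))

theorem pfin_core (p : ℕ) (hp : p.Prime) (G : Type) [Group G] [Finite G] (A : Type)
    [AddCommGroup A] [DistribMulAction G A] (hG : IsPGroup p G)
    (hA : ∃ k, ∀ a : A, (p ^ k : ℕ) • a = 0) (hfix : {a : A | ∀ g : G, g • a = a}.Finite) :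
    Finite A := by
  have : Fact p.Prime := ⟨hp⟩
  obtain ⟨k, hk⟩ := hA
  obtain ⟨n, hn⟩ := IsPGroup.iff_card.mp hG
  exact pfin_aux p hp k A hk n G hn hfix

end Pool.Agent.H17.HB
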