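import Pool.Agent.H92.HB.Stm
import Pool.Agent.H17.HB.PfinCore

/-!
# Project HB, module PFIN
-/

set_option autoImplicit false

namespace Pool.Agent.H17.HB

open Pool.Agent.H92.HB

theorem pfin : S_PFIN := fun p hp G _ _ A _ _ hG hA hfix => pfin_core p hp G A hG hA hfix

end Pool.Agent.H17.HB
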